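import Pool.Agent.H18.TdpA

namespace Pool.Agent.Results.MP_1ce445_co.Upper

open Pool.Agent.H18.TdpA

lemma P_le {n k : ℕ} {X : ℝ} (hX : 0 ≤ X)
    (h : ∀ G : Fin k → SimpleGraph (Fin n), IsFact G → ((∏ j, gt (G j) : ℕ) : ℝ) ≤ X) :
    (P n k : ℝ) ≤ X := by
  by_cases hne : {p | ∃ G : Fin k → SimpleGraph (Fin n), IsFact G ∧ ∏ j, gt (G j) = p}.Nonempty
  · obtain ⟨G, hG, e⟩ := Nat.sSup_mem hne (bdd n k)
    unfold P; rw [← e]; exact h G hG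
  · unfold P; rw [Set.not_nonempty_iff_eq_empty.1 hne]; simpa using hX

theorem joined :
    (∀ n k r : ℕ, 1 ≤ n → 3 ≤ k → 1 ≤ r →
      (P n k : ℝ) ≤ max (((k : ℝ) * (r : ℝ) ^ 2 + 2) * (n : ℝ) ^ (k - 1))
        (((1 - 2 / (k : ℝ)) * n + 2 * ((n : ℝ) / r) + 1) ^ k)) ∧
    (∀ k : ℕ, 3 ≤ k → ∀ ε : ℝ, 0 < ε → ∃ N : ℕ, ∀ n : ℕ, N ≤ n →
      (P n k : ℝ) ≤ ((1 - 2 / (k : ℝ) + ε) * n) ^ k) ∧
    (∀ n : ℕ, 6 ≤ n → (2 * (n / 6)) ^ 3 ≤ P n 3) := by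
  have main : ∀ n k r : ℕ, 1 ≤ n → 3 ≤ k → 1 ≤ r →
      (P n k : ℝ) ≤ max (((k : ℝ) * (r : ℝ) ^ 2 + 2) * (n : ℝ) ^ (k - 1))
        (((1 - 2 / (k : ℝ)) * n + 2 * ((n : ℝ) / r) + 1) ^ k) := by
    intro n k r hn hk hr
    refine P_le (le_max_of_le_left (by positivity)) fun G hG => ?_
    rcases upper (by omega) hn hG r hr with h | h
    · refine le_max_of_le_left ?_
      rw [← sq] at h
      exact_mod_cast h
    · exact le_max_of_le_right h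
  refine ⟨main, fun k hk ε hε => ?_, fun n hn => lower hn⟩
  obtain ⟨r, hr⟩ := exists_nat_ge (4 / ε)
  have hr0 : (0 : ℝ) < r := lt_of_lt_of_le (by positivity) hr
  have hr1 : 1 ≤ r := by exact_mod_cast hr0
  refine ⟨r + 3 ^ k * (k * r ^ 2 + 2), fun n hn => ?_⟩
  have hrn : (r : ℝ) ≤ n := by exact_mod_cast (by omega : r ≤ n)
  have hn2 : (3 : ℝ) ^ k * ((k : ℝ) * (r : ℝ) ^ 2 + 2) ≤ n := by
    exact_mod_cast (by omega : 3 ^ k * (k * r ^ 2 + 2) ≤ n)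
  have hk' : (3 : ℝ) ≤ k := by exact_mod_cast hk
  have h13 : (1 : ℝ) / 3 ≤ 1 - 2 / k := by
    have : (2 : ℝ) / k ≤ 2 / 3 := by gcongr
    linarith
  have hn0 : (0 : ℝ) < n := by linarith
  have h4 : 4 ≤ ε * r := by rw [div_le_iff₀ hε] at hr; linarith
  refine (main n k r (by omega) hk hr1).trans (max_le ?_ ?_)
  · have e : (n : ℝ) ^ k = n * n ^ (k - 1) := by
      rw [← pow_succ']; congr 1; omega
    calc ((k : ℝ) * (r : ℝ) ^ 2 + 2) * (n : ℝ) ^ (k - 1) ≤ ((1 / 3) ^ k * n) * (n : ℝ) ^ (k - 1) := by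
          gcongr
          rw [one_div, inv_pow, inv_mul_eq_div, le_div_iff₀ (by positivity)]; linarith
      _ = (1 / 3 * n) ^ k := by rw [mul_pow, e]; ring
      _ ≤ ((1 - 2 / k + ε) * n) ^ k := by gcongr; linarith
  · have h5 : 2 * ((n : ℝ) / r) ≤ ε / 2 * n := by
      rw [← mul_div_assoc, div_le_iff₀ hr0]; nlinarith
    have h6 : 1 ≤ ε / 2 * n := by nlinarith
    refine pow_le_pow_left₀ (by positivity) ?_ _
    nlinarith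

theorem result (k : ℕ) (hk : 3 ≤ k) (ε : ℝ) (hε : 0 < ε) : ∃ N : ℕ, ∀ n : ℕ, N ≤ n →
    (P n k : ℝ) ≤ ((1 - 2 / (k : ℝ) + ε) * n) ^ k := joined.2.1 k hk ε hε

end Pool.Agent.Results.MP_1ce445_co.Upper
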